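import Pool.Agent.Lib.MP_85fd23_an_T.Step

/-!
# MP_85fd23_an: spaces with a finite tower, a constant which does not depend on the norm
-/

set_option autoImplicit false

open scoped NNReal

namespace Pool.Agent.Results.MP_85fd23_an.FiniteTower

/-- Property `(*^1)` of the Banach space `X`, with the constant `C` (for its own norm). -/
def StarProp (X : Type*) [NormedAddCommGroup X] [NormedSpace ℝ X] (C : ℝ) : Prop :=
  ∀ (F : X → ℝ) (L : ℝ≥0), LipschitzWith L F → ∀ ε > 0,
    ∃ h : X → ℝ, ContDiff ℝ 1 h ∧ (∀ x, |h x - F x| ≤ ε) ∧ ∀ x y, |h x - h y| ≤ C * L * ‖x - y‖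

/-- The seminorm `N` is an equivalent norm of `X`. -/
def Equivalent {X : Type*} [NormedAddCommGroup X] [NormedSpace ℝ X] (N : Seminorm ℝ X) : Prop :=
  ∃ a b : ℝ, 0 < a ∧ ∀ x, a * ‖x‖ ≤ N x ∧ N x ≤ b * ‖x‖

/-- `Y'` is generated over `Y` by a set `S` which tends weakly to zero modulo `Y`: `Y'` is contained
in the closed linear span of `Y` and `S`, and for every continuous linear functional `φ` on `X`
which vanishes on `Y` and every `ε > 0` only finitely many `x` in `S` have `|φ x| ≥ ε`. -/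
def Step {X : Type*} [NormedAddCommGroup X] [NormedSpace ℝ X] (Y Y' : Submodule ℝ X) : Prop :=
  ∃ S : Set X, Y' ≤ (Y ⊔ Submodule.span ℝ S).topologicalClosure ∧
    ∀ φ : X →L[ℝ] ℝ, (∀ y ∈ Y, φ y = 0) → ∀ ε > 0, {x ∈ S | ε ≤ |φ x|}.Finite

/-- `X` has a tower of height `k`: `k` steps lead from the zero subspace to `X`. -/
def HasTower (X : Type*) [NormedAddCommGroup X] [NormedSpace ℝ X] (k : ℕ) : Prop :=
  ∃ Y : ℕ → Submodule ℝ X, Y 0 = ⊥ ∧ Y k = ⊤ ∧ ∀ i < k, Step (Y i) (Y (i + 1))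

/-- Let `X` be a Banach space with `(*^1)` which has a tower of height `k` (as a Banach space with a
chain of `k` closed subspaces whose successive quotients are weakly compactly generated). Then for
every equivalent norm `N` every function which is `L`-Lipschitz for `N` is a uniform limit of `C^1`
functions which are `((2^(k+1) - 1) L + η)`-Lipschitz for `N`. -/
theorem result {X : Type*} [NormedAddCommGroup X] [NormedSpace ℝ X] [CompleteSpace X] {C : ℝ}
    (hX : StarProp X C) {k : ℕ} (hk : HasTower X k) (N : Seminorm ℝ X)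
    (hN : Equivalent N) {L : ℝ} (hL : 0 ≤ L) (F : X → ℝ) (hF : ∀ x y, |F x - F y| ≤ L * N (x - y))
    {ε η : ℝ} (hε : 0 < ε) (hη : 0 < η) :
    ∃ g : X → ℝ, ContDiff ℝ 1 g ∧ (∀ x, |g x - F x| ≤ ε) ∧
      ∀ x y, |g x - g y| ≤ ((2 ^ (k + 1) - 1) * L + η) * N (x - y) := by
  have hS : MP_85fd23_an.B.StarOne (fun x : X => ‖x‖) C := by
    intro G M hM hG δ hδ
    obtain ⟨h, h1, h2, h3⟩ := hX G ⟨M, hM⟩ (LipschitzWith.of_dist_le_mul fun x y => by
      rw [Real.dist_eq, dist_eq_norm]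
      exact hG x y) δ hδ
    exact ⟨h, h1, h2, h3⟩
  have hN' : MP_85fd23_an.B.EquivNorm (fun x => N x) :=
    ⟨fun x y => map_add_le_add N x y, fun r x => by rw [map_smul_eq_mul, Real.norm_eq_abs], hN⟩
  obtain ⟨Y, h0, h1, h2⟩ := hk
  exact MP_85fd23_an.T.approx_tower hS hN' Y h0 k h1 h2 hL hF hε hη

end Pool.Agent.Results.MP_85fd23_an.FiniteTower
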