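import Pool.Agent.Lib.MP_85fd23_an_B.Main

/-!
# MP_85fd23_an: one-sidedly differentiable Lipschitz functions, constant one for all norms
-/

set_option autoImplicit false

open Filter
open scoped Topology NNReal

namespace Pool.Agent.Results.MP_85fd23_an.OneSided

/-- Property `(*^1)` of the Banach space `X`, with the constant `C` (for its own norm). -/
def StarProp (X : Type*) [NormedAddCommGroup X] [NormedSpace ℝ X] (C : ℝ) : Prop :=
  ∀ (F : X → ℝ) (L : ℝ≥0), LipschitzWith L F → ∀ ε > 0,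
    ∃ h : X → ℝ, ContDiff ℝ 1 h ∧ (∀ x, |h x - F x| ≤ ε) ∧ ∀ x y, |h x - h y| ≤ C * L * ‖x - y‖

/-- The seminorm `N` is an equivalent norm of `X`. -/
def Equivalent {X : Type*} [NormedAddCommGroup X] [NormedSpace ℝ X] (N : Seminorm ℝ X) : Prop :=
  ∃ a b : ℝ, 0 < a ∧ ∀ x, a * ‖x‖ ≤ N x ∧ N x ≤ b * ‖x‖

/-- `F` is piecewise one-sided with slopes at most `L` for the norm `N`: it is Lipschitz (with any
constant) and for every `κ > 0` the space is a union of countably many sets `A n` such that at every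
point `x` of `A n` there is a continuous linear functional `ξ ≤ (L + κ) N` for which
`F z ≥ F x + ξ (z - x) - κ ‖z - x‖` for all `z` in `A n` near `x`, or
`F z ≤ F x + ξ (z - x) + κ ‖z - x‖` for all `z` in `A n` near `x`. -/
def PiecewiseOneSided {X : Type*} [NormedAddCommGroup X] [NormedSpace ℝ X] (N : Seminorm ℝ X)
    (L : ℝ) (F : X → ℝ) : Prop :=
  (∃ B : ℝ≥0, LipschitzWith B F) ∧
  ∀ κ > 0, ∃ A : ℕ → Set X, (∀ x, ∃ n, x ∈ A n) ∧ ∀ n, ∀ x ∈ A n, ∃ ξ : X →L[ℝ] ℝ,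
    (∀ v, ξ v ≤ (L + κ) * N v) ∧
    ((∀ᶠ z in 𝓝[A n] x, F x + ξ (z - x) - κ * ‖z - x‖ ≤ F z) ∨
      (∀ᶠ z in 𝓝[A n] x, F z ≤ F x + ξ (z - x) + κ * ‖z - x‖))

/-- Every piecewise one-sided function is, for every equivalent norm, a uniform limit of `C^1`
functions with almost the same slopes. -/
theorem result {X : Type*} [NormedAddCommGroup X] [NormedSpace ℝ X] [CompleteSpace X] {C : ℝ}
    (hX : StarProp X C) (N : Seminorm ℝ X) (hN : Equivalent N) {L : ℝ} (hL : 0 ≤ L)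
    (F : X → ℝ) (hF : PiecewiseOneSided N L F) {ε η : ℝ} (hε : 0 < ε) (hη : 0 < η) :
    ∃ g : X → ℝ, ContDiff ℝ 1 g ∧ (∀ x, |g x - F x| ≤ ε) ∧
      ∀ x y, |g x - g y| ≤ (L + η) * N (x - y) := by
  obtain ⟨⟨B, hB⟩, hF⟩ := hF
  have hS : MP_85fd23_an.B.StarOne (fun x : X => ‖x‖) C := by
    intro G M hM hG δ hδ
    obtain ⟨h, h1, h2, h3⟩ := hX G ⟨M, hM⟩ (LipschitzWith.of_dist_le_mul fun x y => by
      rw [Real.dist_eq, dist_eq_norm]
      exact hG x y) δ hδ
    exact ⟨h, h1, h2, h3⟩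
  have hN' : MP_85fd23_an.B.EquivNorm (fun x => N x) :=
    ⟨fun x y => map_add_le_add N x y, fun r x => by rw [map_smul_eq_mul, Real.norm_eq_abs], hN⟩
  exact MP_85fd23_an.B.approx_sigma hS hN' (B := B) B.2 (fun x y => by
    rw [← Real.dist_eq, ← dist_eq_norm]
    exact hB.dist_le_mul x y) hL hF hε hη

end Pool.Agent.Results.MP_85fd23_an.OneSided
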