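import Pool.Agent.Lib.MP_85fd23_an.Embed

/-!
Lipschitz functions on spaces isomorphic to subspaces of c_0(Γ): C^1 approximation with a constant
that does not depend on the norm.  C₀(Γ, ℝ) with Γ discrete is the Banach space c_0(Γ).
-/

namespace Pool.Agent.Results.MP_85fd23_an.SmallC0

open scoped ZeroAtInfty NNReal

universe u v

/-- Let `E` be a real normed space with a bounded linear map `J` into `c_0(Γ)`, bounded from below
(an isomorphic embedding), `Γ` any set. Every `L`-Lipschitz function `F` on `E` is a uniform limit of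
`C^1` functions on `E` that are Lipschitz with constant `(1 + ε) L`. -/
theorem result {Γ : Type u} [TopologicalSpace Γ] [DiscreteTopology Γ] {E : Type v}
    [NormedAddCommGroup E] [NormedSpace ℝ E] (J : E →L[ℝ] C₀(Γ, ℝ)) (c : ℝ) (hc : 0 < c)
    (hJ : ∀ x, c * ‖x‖ ≤ ‖J x‖) (F : E → ℝ) (L : ℝ≥0) (hF : LipschitzWith L F) (ε : ℝ≥0)
    (hε : 0 < ε) (δ : ℝ) (hδ : 0 < δ) :
    ∃ h : E → ℝ, ContDiff ℝ 1 h ∧ LipschitzWith ((1 + ε) * L) h ∧ ∀ x, |h x - F x| ≤ δ :=
  C0G.embed J hc hJ hF hε hδ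

end Pool.Agent.Results.MP_85fd23_an.SmallC0
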