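import Pool.Agent.Lib.MP_85fd23_an_SR.Main

/-!
# MP_85fd23_an: superreflexive spaces

Lipschitz functions on superreflexive spaces are uniform limits of `C^1` functions with the same
Lipschitz constant, for every equivalent norm.
-/

set_option autoImplicit false

namespace Pool.Agent.Results.MP_85fd23_an.Superreflexive

open scoped NNReal

universe u

/-- `N` is a norm on `E` which is equivalent to the given norm. -/
structure EquivNorm {E : Type u} [NormedAddCommGroup E] [NormedSpace ℝ E] (N : E → ℝ) : Prop where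
  add_le : ∀ x y, N (x + y) ≤ N x + N y
  smul : ∀ (r : ℝ) (x : E), N (r • x) = |r| * N x
  equiv : ∃ a b : ℝ, 0 < a ∧ ∀ x, a * ‖x‖ ≤ N x ∧ N x ≤ b * ‖x‖

/-- `N` is uniformly smooth: `N (x + h) + N (x - h) ≤ 2 + ε N h` for `N x = 1` and `N h ≤ δ`. -/
def UniformlySmooth {E : Type u} [NormedAddCommGroup E] [NormedSpace ℝ E] (N : E → ℝ) : Prop :=
  ∀ ε > 0, ∃ δ > 0, ∀ x h : E, N x = 1 → N h ≤ δ → N (x + h) + N (x - h) ≤ 2 + ε * N h

/-- Let `E` be a real normed space with an equivalent uniformly smooth norm (a superreflexive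
space, by Enflo's theorem). Every `L`-Lipschitz function `F` on `E` is the uniform limit of
`L`-Lipschitz functions `h` of class `C^1` with a uniformly continuous derivative. Moreover `h`
keeps every bound `F (x + v) ≤ F x + m` (for all `x`), so it has the Lipschitz constants of `F`
for all norms at the same time. -/
theorem result {E : Type u} [NormedAddCommGroup E] [NormedSpace ℝ E] {N : E → ℝ}
    (hN : EquivNorm N) (hs : UniformlySmooth N) (F : E → ℝ) (L : ℝ≥0) (hF : LipschitzWith L F)
    (δ : ℝ) (hδ : 0 < δ) :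
    ∃ h : E → ℝ, ContDiff ℝ 1 h ∧ UniformContinuous (fderiv ℝ h) ∧ LipschitzWith L h ∧
      (∀ x, |h x - F x| ≤ δ) ∧
      ∀ (v : E) (m : ℝ), (∀ x, F (x + v) ≤ F x + m) → ∀ x, h (x + v) ≤ h x + m := by
  obtain ⟨a, b, ha, hab⟩ := hN.equiv
  obtain ⟨h, h1, h2, h3, h4⟩ := Pool.Agent.MP_85fd23_an.SR.approx hN.add_le hN.smul ha
    (fun x => (hab x).1) (fun x => (hab x).2) hs hF hδ
  refine ⟨h, h1, h2, ?_, h3, h4⟩
  refine LipschitzWith.of_dist_le_mul fun x y => ?_
  rw [Real.dist_eq, dist_eq_norm, abs_le]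
  have key : ∀ x v : E, h (x + v) ≤ h x + L * ‖v‖ := by
    intro x v
    refine h4 v _ (fun z => ?_) x
    have := hF.dist_le_mul (z + v) z
    rw [Real.dist_eq, dist_eq_norm, add_sub_cancel_left] at this
    linarith [(abs_le.1 this).2]
  have k1 := key x (y - x)
  have k2 := key y (x - y)
  rw [add_sub_cancel] at k1 k2
  rw [norm_sub_rev] at k1
  constructor <;> linarith

end Pool.Agent.Results.MP_85fd23_an.Superreflexive
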